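import Pool.Agent.H43.Dick3

open MeasureTheory ProbabilityTheory

namespace Pool.Agent.Results.MP_5a22fd_pr.Bounded

/-- `I n` is the indicator with index `n + 1`. -/
theorem result : ∃ C : ℝ, ∀ (Ω : Type) [MeasurableSpace Ω] (P : Measure Ω) [IsProbabilityMeasure P]
    (I : ℕ → Ω → ℝ), (∀ n, Measurable (I n)) → iIndepFun I P →
    (∀ n ω, I n ω = 0 ∨ I n ω = 1) → (∀ n : ℕ, P {ω | I n ω = 1} = 1 / ((n : ENNReal) + 1)) →
    ∀ A : Set ℝ, MeasurableSet A →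
      P.map (fun ω => ∑' n : ℕ, I n ω / ((n : ℝ) + 1)) A ≤ ENNReal.ofReal C * volume A := by
  refine ⟨H43.Dick.C, fun Ω _ P _ I h1 h2 h3 h4 A _ => ?_⟩
  exact Measure.le_iff'.1 (H43.Dick.Rec.bdd ⟨h1, h2, h3, h4⟩) A

end Pool.Agent.Results.MP_5a22fd_pr.Bounded
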